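import Pool.Agent.H96.DField

/-!
# Regular proper models over the integers of diagonal hypersurfaces of odd prime degree
-/

set_option autoImplicit false
open AlgebraicGeometry CategoryTheory

namespace Pool.Agent.Results.MP_4d1008_ag.DiagonalPrimeDegree

/-- The dehomogenization `a₀ + a₁ t₀ ^ p + … + a_n t_{n-1} ^ p` of the diagonal form
`∑ⱼ aⱼ xⱼ ^ p` with integer coefficients, as a polynomial in `ℚ[t₀, …, t_{n-1}]`. -/
noncomputable def affineDiagonal (p : ℕ) {n : ℕ} (a : Fin (n + 1) → ℤ) :
    MvPolynomial (Fin n) ℚ :=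
  ∑ j, MvPolynomial.C (a j : ℚ) *
    (Fin.cons 1 MvPolynomial.X : Fin (n + 1) → MvPolynomial (Fin n) ℚ) j ^ p

/-- The field of rational functions in `s` variables over the function field of the hypersurface
`∑ⱼ aⱼ xⱼ ^ p = 0` over `ℚ`: the ring of fractions of `R[u₁, …, u_s]`, where
`R = ℚ[t₀, …, t_{n-1}] / (a₀ + a₁ t₀ ^ p + … + a_n t_{n-1} ^ p)` is the coordinate ring of its
affine part. -/
abbrev DiagonalFunctionField (p : ℕ) {n : ℕ} (a : Fin (n + 1) → ℤ) (s : ℕ) : Type :=
  FractionRing (MvPolynomial (Fin s)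
    (MvPolynomial (Fin n) ℚ ⧸ Ideal.span {affineDiagonal p a}))

/-- Let `p` be an odd prime, let `n ≥ 2`, let `a₀, …, a_n` be squarefree integers prime to `p`, let
`s` be a natural number, and let `X` be an integral scheme of finite type over `Spec ℤ` whose
function field is the field of rational functions in `s` variables over the function field of the
hypersurface `∑ⱼ aⱼ xⱼ ^ p = 0` of degree `p` in projective `n`-space over `ℚ`. Then there is an
integral scheme `X'`, proper over `Spec ℤ`, all of whose local rings are regular (Krull dimension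
equals cotangent space dimension) and which has the same function field as `X`. -/
theorem result :
    ∀ (p : ℕ), p.Prime → p ≠ 2 → ∀ (n : ℕ), 2 ≤ n → ∀ (a : Fin (n + 1) → ℤ),
      (∀ j, Squarefree (a j)) → (∀ j, ¬ (p : ℤ) ∣ a j) → ∀ (s : ℕ),
      ∀ (X : Scheme.{0}) (_ : IsIntegral X) (f : X ⟶ Spec (CommRingCat.of ℤ)),
      LocallyOfFiniteType f → QuasiCompact f →
      Nonempty (X.functionField ≃+* DiagonalFunctionField p a s) →
      ∃ (X' : Scheme.{0}) (_ : IsIntegral X') (g : X' ⟶ Spec (CommRingCat.of ℤ)),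
        IsProper g ∧
        (∀ x : X',
          (((Module.finrank (IsLocalRing.ResidueField (X'.presheaf.stalk x))
              (IsLocalRing.CotangentSpace (X'.presheaf.stalk x)) : ℕ∞)) : WithBot ℕ∞)
            = ringKrullDim (X'.presheaf.stalk x)) ∧
        Nonempty (X'.functionField ≃+* X.functionField) := by
  intro p hp hp2 n hn a hsq hpa s X hX f _ _ ⟨e⟩
  have h1 : Pool.Agent.H19.OG.FracCharts (MvPolynomial (Fin s)
      (MvPolynomial (Fin n) ℚ ⧸ Ideal.span {affineDiagonal p a})) :=
    (Pool.Agent.H96.Diag.fracCharts hp hp2 hn a hsq hpa).mvPolynomial s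
  exact (Pool.Agent.H96.Diag.hasCharts_of_fracCharts h1 e).exists_model

end Pool.Agent.Results.MP_4d1008_ag.DiagonalPrimeDegree
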