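import Pool.Agent.H96.Y.Q4

/-!
# Regular proper models of quotients of products of curves and surfaces
-/

set_option autoImplicit false
open AlgebraicGeometry CategoryTheory

namespace Pool.Agent.Results.MP_4d1008_ag.QuotientsOfProducts

/-- Every integral scheme of finite type over `Spec ℤ` whose function field is `K` has the function
field of an integral scheme which is proper over `Spec ℤ` and all of whose local rings are regular
(Krull dimension equals cotangent space dimension). -/
def HasRegularProperModels (K : Type) [CommRing K] : Prop :=
  ∀ (X : Scheme.{0}) (_ : IsIntegral X) (f : X ⟶ Spec (CommRingCat.of ℤ)),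
    LocallyOfFiniteType f → QuasiCompact f → Nonempty (X.functionField ≃+* K) →
    ∃ (X' : Scheme.{0}) (_ : IsIntegral X') (g : X' ⟶ Spec (CommRingCat.of ℤ)),
      IsProper g ∧
      (∀ x : X',
        (((Module.finrank (IsLocalRing.ResidueField (X'.presheaf.stalk x))
            (IsLocalRing.CotangentSpace (X'.presheaf.stalk x)) : ℕ∞)) : WithBot ℕ∞)
          = ringKrullDim (X'.presheaf.stalk x)) ∧
      Nonempty (X'.functionField ≃+* X.functionField)

/-- `F` is the function field of a regular projective surface over `k`: its transcendence degree is
`2`, and there are nonzero elements `x 0, …, x N` of `F` such that all the rings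
`k[x 0 / x i, …, x N / x i]` (the coordinate rings of the standard affine open subsets of the closed
subvariety of `ℙ ^ N` with generic point `(x 0 : … : x N)`) are regular with field of fractions
`F`. -/
def RegularProjectiveSurface {k K : Type} [Field k] [Field K] [Algebra k K]
    (F : IntermediateField k K) : Prop :=
  Algebra.trdeg k F = 2 ∧ ∃ (N : ℕ) (x : Fin (N + 1) → F), (∀ i, x i ≠ 0) ∧ ∀ i,
    IsRegularRing (Algebra.adjoin k (Set.range fun j => x j / x i)) ∧
    IsFractionRing (Algebra.adjoin k (Set.range fun j => x j / x i)) F

/-- `F` is the function field of a curve over `k` (a finitely generated extension of transcendence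
degree `1`), or a field of rational functions in two variables over `k` (generated by two elements
and of transcendence degree `2`), or the function field of a regular projective surface over `k`. -/
def CurveOrSurface {k K : Type} [Field k] [Field K] [Algebra k K] (F : IntermediateField k K) :
    Prop :=
  (F.FG ∧ Algebra.trdeg k F = 1) ∨
    ((∃ x y : K, F = IntermediateField.adjoin k {x, y}) ∧ Algebra.trdeg k F = 2) ∨
    RegularProjectiveSurface F

/-- Let `k` be a finite field of characteristic `p`, let `L` be a field over `k` generated by
subfields `E 1, …, E n` which are independent (the transcendence degree of `L` over `k` is the sum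
of those of the `E i`), and let `G` be a finite commutative group which acts on `L` by
automorphisms over `k` and maps each `E i` into itself. Suppose that the order of the image of `G`
in the automorphism group of `E i` (the index of the subgroup which fixes `E i`) is not divisible by
`p ^ 2`, that the fixed field of `G` in `E i` is the function field of a curve or of a regular
projective surface over `k`, and that `k` contains a primitive root of unity of each order prime to
`p` which is the order of an element of `G`. Then for all `s ≥ 0` every integral scheme of finite
type over `Spec ℤ` whose function field is the field of rational functions in `s` variables over the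
fixed field of `G` in `L` has a regular proper model over `Spec ℤ`. -/
theorem result :
    ∀ (p : ℕ), p.Prime → ∀ (k : Type) [Field k] [Finite k] [CharP k p] (L : Type) [Field L]
      [Algebra k L] (G : Type) [CommGroup G] [Finite G] [MulSemiringAction G L]
      [SMulCommClass G k L] (n : ℕ) (E : Fin n → IntermediateField k L),
      ⨆ i, E i = ⊤ → Algebra.trdeg k L = ∑ i, Algebra.trdeg k (E i) →
      (∀ i (g : G), ∀ x ∈ E i, g • x ∈ E i) →
      (∀ i, ¬ p ^ 2 ∣ (fixingSubgroup G (E i : Set L)).index) →
      (∀ i, CurveOrSurface (E i ⊓ FixedPoints.intermediateField G : IntermediateField k L)) →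
      (∀ e : ℕ, ¬ p ∣ e → (∃ g : G, orderOf g = e) → ∃ ζ : k, IsPrimitiveRoot ζ e) →
      ∀ s : ℕ, HasRegularProperModels (FractionRing (MvPolynomial (Fin s)
        (FixedPoints.intermediateField G : IntermediateField k L))) := by
  intro p hp k _ _ _ L _ _ G _ _ _ _ n E hsup htr hE hindex hF hroots s X hX g _ _ ⟨e⟩
  have : Fact p.Prime := ⟨hp⟩
  have h1 : Pool.Agent.H19.OG.HasCharts
      (FixedPoints.intermediateField G : IntermediateField k L) := by
    refine Pool.Agent.H96.Y.hasCharts_quot p k L G n E hroots hsup htr hE hindex fun i => ?_
    rcases hF i with h1 | ⟨⟨x, y, h1⟩, h2⟩ | ⟨h1, h2⟩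
    · exact Or.inl h1
    · refine Or.inr ⟨?_, h2⟩
      rw [h1] at h2 ⊢
      exact Pool.Agent.H96.T.ss_rat h2
    · exact Or.inr ⟨Pool.Agent.H96.T.ss_reg h1 h2, h1⟩
  have h2 : Pool.Agent.H19.OG.FracCharts (MvPolynomial (Fin s)
      (FixedPoints.intermediateField G : IntermediateField k L)) :=
    (Pool.Agent.H96.W.fracCharts_field h1).mvPolynomial s
  exact (Pool.Agent.H96.Diag.hasCharts_of_fracCharts h2 e).exists_model

end Pool.Agent.Results.MP_4d1008_ag.QuotientsOfProducts
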