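import Pool.Agent.H96.W4.Joint

/-!
# Regular proper models of wild covers of products of curves over finite fields
-/

set_option autoImplicit false
open AlgebraicGeometry CategoryTheory

namespace Pool.Agent.H96.Spare.WildCovers

/-- Every integral scheme of finite type over `Spec ℤ` whose function field is `K` has the function
field of an integral scheme which is proper over `Spec ℤ` and all of whose local rings are regular
(Krull dimension equals cotangent space dimension). -/
def HasRegularProperModels (K : Type) [CommRing K] : Prop :=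
  ∀ (X : Scheme.{0}) (_ : IsIntegral X) (f : X ⟶ Spec (CommRingCat.of ℤ)),
    LocallyOfFiniteType f → QuasiCompact f → Nonempty (X.functionField ≃+* K) →
    ∃ (X' : Scheme.{0}) (_ : IsIntegral X') (g : X' ⟶ Spec (CommRingCat.of ℤ)),
      IsProper g ∧
      (∀ x : X',
        (((Module.finrank (IsLocalRing.ResidueField (X'.presheaf.stalk x))
            (IsLocalRing.CotangentSpace (X'.presheaf.stalk x)) : ℕ∞)) : WithBot ℕ∞)
          = ringKrullDim (X'.presheaf.stalk x)) ∧
      Nonempty (X'.functionField ≃+* X.functionField)

/-- The additive operator `g ↦ g ^ p - Λ g` on vectors `g` with entries in `F`, where `Λ` is a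
square matrix over the field of constants `k`; for `Λ = 1` it is the Artin–Schreier operator
`g a ↦ g a ^ p - g a`, and for `Λ = 0` it is the Frobenius map `g a ↦ g a ^ p`. -/
def frobeniusSub (p : ℕ) {k F : Type} [Field k] [Field F] [Algebra k F] {m : ℕ}
    (Λ : Matrix (Fin m) (Fin m) k) (g : Fin m → F) (a : Fin m) : F :=
  g a ^ p - ∑ b, algebraMap k F (Λ a b) * g b

/-- The functions `f a` on a curve with function field `F` are scalar at the valuation ring `W` of
`F`: up to values of the operator `g ↦ g ^ p - Λ g` and values `Λ q` of `Λ` on vectors `q` with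
entries in `W`, they are multiples, by constants `c a ∈ k`, of one function `φ`, which lies in `W`
or whose order at `W` is not divisible by `p` (no `y ^ p * φ` is a unit of `W`). -/
def ScalarAt (p : ℕ) {k F : Type} [Field k] [Field F] [Algebra k F] {m : ℕ}
    (Λ : Matrix (Fin m) (Fin m) k) (f : Fin m → F) (W : ValuationSubring F) : Prop :=
  ∃ (φ : F) (c : Fin m → k) (g q : Fin m → F),
    (φ ∈ W ∨ ∀ y : F, W.valuation (y ^ p * φ) ≠ 1) ∧ (∀ a, q a ∈ W) ∧
    ∀ a, f a = frobeniusSub p Λ g a + algebraMap k F (c a) * φ + ∑ b, algebraMap k F (Λ a b) * q b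

/-- Let `k` be a finite field of characteristic `p`, let `K` be a field of transcendence degree `n`
over `k`, and let `F 1, …, F n ⊆ K` be function fields of curves over `k` (finitely generated
extensions of transcendence degree `1`). Suppose that `K` is generated over `k` by the `F i`, by
elements `z a` with `z a ^ p - ∑ b, Λ a b * z b = ∑ i, f i a`, where `Λ` is a square matrix over
`k` such that `Λ ^ (p) * Λ` has the same rank as `Λ` (for example `Λ` invertible or `Λ = 0`) and
`f i a ∈ F i`, and by elements `w b` with `w b ^ N b = ∏ i, h i b`, where `p` does not divide `N b`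
and `h i b ∈ F i` is not zero. Suppose further that the functions `f i a` are scalar at every
valuation ring `W ≠ F i` of `F i`. Then for all `s ≥ 0` every integral scheme of finite type over
`Spec ℤ` whose function field is the field of rational functions in `s` variables over `K` has a
regular proper model over `Spec ℤ`. -/
theorem result :
    ∀ (p : ℕ), p.Prime → ∀ (k : Type) [Field k] [Finite k] [CharP k p] (K : Type) [Field K]
      [Algebra k K] (n m r : ℕ) (F : Fin n → IntermediateField k K),
      (∀ i, (F i).FG ∧ Algebra.trdeg k (F i) = 1) → Algebra.trdeg k K = n →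
      ∀ (Λ : Matrix (Fin m) (Fin m) k), (Λ.map (· ^ p) * Λ).rank = Λ.rank →
      ∀ (f : ∀ i, Fin m → F i) (h : ∀ i, Fin r → F i) (z : Fin m → K) (w : Fin r → K)
        (N : Fin r → ℕ),
      (∀ i, ∀ W : ValuationSubring (F i), W ≠ ⊤ → ScalarAt p Λ (f i) W) →
      (∀ a, frobeniusSub p Λ z a = ∑ i, (f i a : K)) →
      (∀ i b, h i b ≠ 0) → (∀ b, ¬ p ∣ N b) → (∀ b, w b ^ N b = ∏ i, (h i b : K)) →
      (⨆ i, F i) ⊔ IntermediateField.adjoin k (Set.range z ∪ Set.range w) = ⊤ →
      ∀ s : ℕ, HasRegularProperModels (FractionRing (MvPolynomial (Fin s) K)) := by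
  intro p hp k _ _ _ K _ _ n m r F hF htr Λ hΛ f h z w N hf hz hh hN hw hgen s X hX g _ _ ⟨e⟩
  have : Fact p.Prime := ⟨hp⟩
  have h1 : Pool.Agent.H19.OG.HasCharts K := by
    refine Pool.Agent.H96.W4.hasCharts_joint p k K n m r F hF htr Λ hΛ f h z w N ?_ hz hh hN hw hgen
    intro i W hW
    obtain ⟨φ, c, g', q, h2, h3, h4⟩ := hf i W hW
    refine ⟨φ, c, g', q, ?_, fun a => (W.valuation_le_one_iff _).mpr (h3 a), h4⟩
    rcases h2 with h2 | h2
    · exact Or.inl ((W.valuation_le_one_iff _).mpr h2)
    · exact Or.inr h2
  have h2 : Pool.Agent.H19.OG.FracCharts (MvPolynomial (Fin s) K) :=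
    (Pool.Agent.H96.W.fracCharts_field h1).mvPolynomial s
  exact (Pool.Agent.H96.Diag.hasCharts_of_fracCharts h2 e).exists_model

end Pool.Agent.H96.Spare.WildCovers
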